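import Pool.Agent.Q301.QM.Prod

/-!
# Countable products of compact Hausdorff quasi-metrizable spaces in ZF

In every model of Zermelo set theory (so in every model of ZF): if every countable product of
compact metrizable spaces is metrizable, then every countable product of compact Hausdorff
quasi-metrizable spaces is quasi-metrizable (even metrizable). This holds because, without choice,
every compact Hausdorff quasi-metrizable space is metrizable.
-/

namespace Pool.Agent.Results.MP_5db68c_lc.CountableProducts

open FirstOrder FirstOrder.Language
open Pool.Agent.Helper672.Plain (LSet Zermelo El)
open Pool.Agent.H635Amen (IsReals)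
open Pool.Agent.Q301.QM

universe u

theorem result (M : Type u) [LSet.Structure M] [Zermelo M] (r : M) [Field (El r)]
    [LinearOrder (El r)] [IsStrictOrderedRing (El r)] (hr : IsReals r) (h : CPMCM r) :
    CPCHQ r := by
  let _ := Pool.Agent.Helper672.Plain.toL M
  have : Pool.Agent.Helper672.ZFA.IsModel M :=
    Pool.Agent.Helper672.ZFA.H635.isModel_of_zermelo inferInstance
  exact cpchq_of hr h

end Pool.Agent.Results.MP_5db68c_lc.CountableProducts
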